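import Mathlib
import Pool.Agent.U798.GP.Spec

/-!
# Finitely generated abelian groups are residually finite
-/

set_option autoImplicit false

namespace Pool.Agent.U212.GP

theorem hom_of {G : Type} [AddCommGroup G] [AddGroup.FG G] (g : G) (hg : g ≠ 0) :
    ∃ (M : ℕ) (ψ : G →+ ZMod M), M ≠ 0 ∧ ψ g ≠ 0 := by
  obtain ⟨n, ι, hι, p, hp, e, ⟨E⟩⟩ := AddCommGroup.equiv_free_prod_directSum_zmod G
  have hEg : E g ≠ 0 := by simpa using hg
  by_cases h1 : (E g).1 = 0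
  · have h2 : (E g).2 ≠ 0 := fun h => hEg (Prod.ext h1 h)
    obtain ⟨i, hi⟩ : ∃ i, (E g).2 i ≠ 0 := by
      by_contra hcon
      push Not at hcon
      exact h2 (DFinsupp.ext hcon)
    exact ⟨p i ^ e i, (DFinsupp.evalAddMonoidHom i).comp
      ((AddMonoidHom.snd _ _).comp E.toAddMonoidHom), pow_ne_zero _ (hp i).ne_zero, hi⟩
  · obtain ⟨k, hk⟩ : ∃ k, (E g).1 k ≠ 0 := by
      by_contra hcon
      push Not at hcon
      exact h1 (Finsupp.ext hcon)
    refine ⟨((E g).1 k).natAbs + 1, (Int.castAddHom (ZMod _)).comp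
      ((Finsupp.applyAddHom k).comp ((AddMonoidHom.fst _ _).comp E.toAddMonoidHom)), by omega, ?_⟩
    change (((E g).1 k : ℤ) : ZMod (((E g).1 k).natAbs + 1)) ≠ 0
    rw [Ne, ZMod.intCast_zmod_eq_zero_iff_dvd]
    intro h
    have h3 := Int.natAbs_dvd_natAbs.2 h
    have h4 := Nat.le_of_dvd (Int.natAbs_pos.2 hk) h3
    simp only [Int.natAbs_natCast] at h4
    omega

/-- **ALG** -/
theorem t_ALG : Pool.Agent.U798.GP.S_ALG := by
  intro n x y z hz
  have : AddGroup.FG (Fin n → ℤ) := Module.Finite.iff_addGroup_fg.1 inferInstance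
  have : AddGroup.FG ((Fin n → ℤ) ⧸ AddSubgroup.closure {x, y}) := inferInstance
  have hg : (QuotientAddGroup.mk z : (Fin n → ℤ) ⧸ AddSubgroup.closure {x, y}) ≠ 0 := by
    rwa [Ne, QuotientAddGroup.eq_zero_iff]
  obtain ⟨M, ψ, hM, hψ⟩ := hom_of _ hg
  obtain ⟨Ψ, hΨ⟩ : ∃ Ψ : (Fin n → ℤ) →+ ZMod M,
      Ψ = ψ.comp (QuotientAddGroup.mk' (AddSubgroup.closure {x, y})) := ⟨_, rfl⟩
  have key : ∀ w : Fin n → ℤ, ∑ i, (w i : ZMod M) * Ψ (Pi.single i 1) = Ψ w := by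
    intro w
    have h1 : w = ∑ i, w i • (Pi.single i (1 : ℤ) : Fin n → ℤ) := by
      funext j
      simp [Finset.sum_apply, Pi.single_apply]
    conv_rhs => rw [h1, map_sum]
    refine Finset.sum_congr rfl fun i _ => ?_
    rw [map_zsmul, zsmul_eq_mul]
  have h0 : ∀ w ∈ AddSubgroup.closure {x, y}, Ψ w = 0 := by
    intro w hw
    rw [hΨ]
    change ψ (QuotientAddGroup.mk w) = 0
    rw [(QuotientAddGroup.eq_zero_iff w).2 hw, map_zero]
  refine ⟨M, fun i => Ψ (Pi.single i 1), hM, ?_, ?_, ?_⟩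
  · rw [key]
    exact h0 x (AddSubgroup.subset_closure (by simp))
  · rw [key]
    exact h0 y (AddSubgroup.subset_closure (by simp))
  · rw [key, hΨ]
    exact hψ

end Pool.Agent.U212.GP

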